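import Pool.Agent.L5helper59.DM.Defs
import Pool.Agent.L5helper18.DC.Persist

/-!
# One sheet: nondegenerate points of `g u^n - θ^n r` near a nondegenerate point of `u`
-/

set_option autoImplicit false

open MvPolynomial Filter Topology Finset

namespace Pool.Agent.L5helper21.DM7

open Pool.Agent.L5helper18.DC (zero_persists)

/-- directional derivative -/
noncomputable def dl {ι : Type} [Fintype ι] (p y : ι → ℂ) (P : MvPolynomial ι ℂ) : ℂ :=
  ∑ i, y i * eval p (pderiv i P)

section
variable {ι : Type} [Fintype ι]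

theorem dl_add (p y : ι → ℂ) (P Q : MvPolynomial ι ℂ) : dl p y (P + Q) = dl p y P + dl p y Q := by
  unfold dl
  rw [← sum_add_distrib]
  exact sum_congr rfl fun i _ => by rw [map_add, map_add, mul_add]

theorem dl_sub (p y : ι → ℂ) (P Q : MvPolynomial ι ℂ) : dl p y (P - Q) = dl p y P - dl p y Q := by
  unfold dl
  rw [← sum_sub_distrib]
  exact sum_congr rfl fun i _ => by rw [map_sub, map_sub, mul_sub]

theorem dl_mul (p y : ι → ℂ) (P Q : MvPolynomial ι ℂ) :
    dl p y (P * Q) = eval p P * dl p y Q + eval p Q * dl p y P := by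
  unfold dl
  rw [mul_sum, mul_sum, ← sum_add_distrib]
  refine sum_congr rfl fun i _ => ?_
  rw [Derivation.leibniz, smul_eq_mul, smul_eq_mul, map_add, map_mul, map_mul]
  ring

theorem dl_C (p y : ι → ℂ) (a : ℂ) : dl p y (C a) = 0 := by
  unfold dl
  exact sum_eq_zero fun i _ => by rw [pderiv_C, map_zero, mul_zero]

theorem dl_X (p y : ι → ℂ) (i : ι) : dl p y (X i) = y i := by
  classical
  unfold dl
  rw [sum_eq_single i]
  · rw [pderiv_X_self, map_one, mul_one]
  · intro j _ hj
    rw [pderiv_X_of_ne hj.symm, map_zero, mul_zero]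
  · intro h
    exact absurd (mem_univ _) h

theorem dl_pow (p y : ι → ℂ) (P : MvPolynomial ι ℂ) (k : ℕ) :
    dl p y (P ^ k) = k * eval p P ^ (k - 1) * dl p y P := by
  induction k with
  | zero =>
    rw [pow_zero, ← C_1, dl_C]
    simp
  | succ k ih =>
    rw [pow_succ, dl_mul, ih, map_pow, Nat.add_sub_cancel]
    rcases k with _ | k
    · simp
    · rw [Nat.add_sub_cancel]
      push_cast
      ring

theorem dl_sum {o : Type} (s : Finset o) (p y : ι → ℂ) (P : o → MvPolynomial ι ℂ) :
    dl p y (∑ a ∈ s, P a) = ∑ a ∈ s, dl p y (P a) := by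
  classical
  induction s using Finset.induction_on with
  | empty =>
    rw [sum_empty, sum_empty, ← C_0, dl_C]
  | insert a s ha ih => rw [sum_insert ha, sum_insert ha, dl_add, ih]

theorem dl_rename {τ : Type} [Fintype τ] (f : τ → ι) (p y : ι → ℂ) (P : MvPolynomial τ ℂ) :
    dl p y (rename f P) = dl (p ∘ f) (y ∘ f) P := by
  induction P using MvPolynomial.induction_on with
  | C a => rw [rename_C, dl_C, dl_C]
  | add P Q hP hQ => rw [map_add, dl_add, dl_add, hP, hQ]
  | mul_X P i hP =>
    rw [map_mul, dl_mul, dl_mul, hP, rename_X, dl_X, dl_X, eval_X, eval_X, eval_rename]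
    rfl

end

section
variable {ι κ : Type} [Fintype ι]

/-- the embedding of the variables -/
def em : ι → Unit ⊕ Option ι := fun i => Sum.inr (some i)

/-- the system -/
noncomputable def Q (u g r : MvPolynomial ι ℂ) (w : κ → ι → ℂ) (m : ℕ) :
    Option (Option κ) → MvPolynomial (Unit ⊕ Option ι) ℂ
  | none => rename em u - X (Sum.inl ()) * X (Sum.inr none)
  | some none => rename em g * X (Sum.inr none) ^ (m + 1) - rename em r
  | some (some e) => ∑ i, C (w e i) *
      (C ((m : ℂ) + 1) * (rename em g * (X (Sum.inr none) ^ m * rename em (pderiv i u))) +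
        X (Sum.inl ()) * (X (Sum.inr none) ^ (m + 1) * rename em (pderiv i g) -
          rename em (pderiv i r)))

/-- the point -/
def pt (θ z : ℂ) (y : ι → ℂ) : Unit ⊕ Option ι → ℂ := Sum.elim (fun _ => θ) (fun o => o.elim z y)

theorem pt_em (θ z : ℂ) (y : ι → ℂ) : pt θ z y ∘ em = y := rfl

theorem ev_Q1 (u g r : MvPolynomial ι ℂ) (w : κ → ι → ℂ) (m : ℕ) (θ z : ℂ) (y : ι → ℂ) :
    eval (pt θ z y) (Q u g r w m none) = eval y u - θ * z := by
  simp only [Q, map_sub, map_mul, eval_rename, eval_X, pt_em]
  rfl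

theorem ev_Q2 (u g r : MvPolynomial ι ℂ) (w : κ → ι → ℂ) (m : ℕ) (θ z : ℂ) (y : ι → ℂ) :
    eval (pt θ z y) (Q u g r w m (some none)) = eval y g * z ^ (m + 1) - eval y r := by
  simp only [Q, map_sub, map_mul, map_pow, eval_rename, eval_X, pt_em]
  rfl

theorem ev_Q3 (u g r : MvPolynomial ι ℂ) (w : κ → ι → ℂ) (m : ℕ) (θ z : ℂ) (y : ι → ℂ) (e : κ) :
    eval (pt θ z y) (Q u g r w m (some (some e))) = ∑ i, w e i *
      (((m : ℂ) + 1) * (eval y g * (z ^ m * eval y (pderiv i u))) +
        θ * (z ^ (m + 1) * eval y (pderiv i g) - eval y (pderiv i r))) := by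
  simp only [Q, map_sum, map_sub, map_mul, map_add, map_pow, eval_rename, eval_X, eval_C, pt_em]
  rfl

theorem dl_Q1 (u g r : MvPolynomial ι ℂ) (w : κ → ι → ℂ) (m : ℕ) (θ z t : ℂ) (y v : ι → ℂ) :
    dl (pt θ z y) (pt 0 t v) (Q u g r w m none) = dl y v u - θ * t := by
  simp only [Q, dl_sub, dl_mul, dl_rename, dl_X, eval_X, pt_em]
  simp only [pt, Sum.elim_inl, Sum.elim_inr, Option.elim]
  ring

theorem dl_Q2 (u g r : MvPolynomial ι ℂ) (w : κ → ι → ℂ) (m : ℕ) (θ z t : ℂ) (y v : ι → ℂ) :
    dl (pt θ z y) (pt 0 t v) (Q u g r w m (some none)) =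
      z ^ (m + 1) * dl y v g + eval y g * (((m : ℂ) + 1) * z ^ m * t) - dl y v r := by
  simp only [Q, dl_sub, dl_mul, dl_pow, dl_rename, dl_X, eval_X, pt_em, map_pow, eval_rename]
  simp only [pt, Sum.elim_inr, Option.elim, Nat.add_sub_cancel]
  push_cast
  ring

theorem dl_Q3 (u g r : MvPolynomial ι ℂ) (w : κ → ι → ℂ) (m : ℕ) (θ z t : ℂ) (y v : ι → ℂ)
    (e : κ) :
    dl (pt θ z y) (pt 0 t v) (Q u g r w m (some (some e))) = ∑ i, w e i *
      (((m : ℂ) + 1) * (dl y v g * (z ^ m * eval y (pderiv i u)) +
        eval y g * ((m * z ^ (m - 1) * t) * eval y (pderiv i u) + z ^ m * dl y v (pderiv i u))) +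
        θ * (((m : ℂ) + 1) * z ^ m * t * eval y (pderiv i g) + z ^ (m + 1) * dl y v (pderiv i g) -
          dl y v (pderiv i r))) := by
  simp only [Q, dl_sum, dl_sub, dl_add, dl_mul, dl_pow, dl_rename, dl_X, dl_C, eval_X, eval_C,
    pt_em, map_pow, map_mul, map_sub, map_add, eval_rename]
  refine sum_congr rfl fun i _ => ?_
  simp only [pt, Sum.elim_inl, Sum.elim_inr, Option.elim, Nat.add_sub_cancel]
  push_cast
  ring

theorem dl_pt (θ z : ℂ) (y : ι → ℂ) (q : Option ι → ℂ) (P : MvPolynomial (Unit ⊕ Option ι) ℂ) :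
    ∑ i, q i * eval (pt θ z y) (pderiv (Sum.inr i) P) =
      dl (pt θ z y) (pt 0 (q none) (fun i => q (some i))) P := by
  unfold dl
  rw [Fintype.sum_sum_type]
  simp only [pt, Sum.elim_inl, Sum.elim_inr, zero_mul, Finset.sum_const_zero, zero_add]
  refine sum_congr rfl fun i _ => ?_
  cases i <;> rfl

end

end Pool.Agent.L5helper21.DM7

namespace Pool.Agent.L5helper59.DM

open Pool.Agent.L5helper21.DM7 Pool.Agent.L5helper18.DC

/-- D7, one sheet -/
theorem sheet {ι κ : Type} [Fintype ι] [Fintype κ] [DecidableEq ι] [DecidableEq κ]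
    (hcard : Fintype.card ι = Fintype.card κ + 1) (u g r : MvPolynomial ι ℂ) (w : κ → ι → ℂ)
    (x : ι → ℂ) (hx : Pt u w x) (hg : eval x g ≠ 0) (hr : eval x r ≠ 0) (n : ℕ) (hn : 1 ≤ n)
    (ε : ℝ) (hε : 0 < ε) :
    ∀ᶠ k : ℕ in atTop, ∃ x' : ι → ℂ, (∀ i, ‖x' i - x i‖ ≤ ε) ∧
      Pt (g * u ^ n - C ((1 / ((k : ℂ) + 1)) ^ n) * r) w x' ∧ eval x' u ≠ 0 := by
  obtain ⟨m, rfl⟩ : ∃ m, n = m + 1 := ⟨n - 1, by omega⟩
  obtain ⟨z0, hz0⟩ := IsAlgClosed.exists_pow_nat_eq (eval x r / eval x g) (Nat.succ_pos m)
  have hz0' : z0 ≠ 0 := by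
    intro h
    rw [h, zero_pow (Nat.succ_ne_zero m)] at hz0
    exact div_ne_zero hr hg hz0.symm
  obtain ⟨hx0, hx1, hx2⟩ := hx
  set U : Set (Option ι → ℂ) := {q | (∀ i, ‖q (some i) - x i‖ ≤ ε) ∧ q none ≠ 0} with hU
  have hUn : U ∈ 𝓝 (fun o : Option ι => o.elim z0 x) := by
    rw [hU]
    have h1 : ∀ i : ι, ∀ᶠ q : Option ι → ℂ in 𝓝 (fun o : Option ι => o.elim z0 x),
        ‖q (some i) - x i‖ ≤ ε := by
      intro i
      have hc : ContinuousAt (fun q : Option ι → ℂ => ‖q (some i) - x i‖)
          (fun o : Option ι => o.elim z0 x) :=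
        (((continuous_apply (some i)).sub continuous_const).norm).continuousAt
      have h0 : ‖(fun o : Option ι => o.elim z0 x) (some i) - x i‖ < ε := by simpa using hε
      filter_upwards [hc.eventually (gt_mem_nhds h0)] with q hq
      exact hq.le
    have h2 : ∀ᶠ q : Option ι → ℂ in 𝓝 (fun o : Option ι => o.elim z0 x), q none ≠ 0 := by
      have hc : ContinuousAt (fun q : Option ι → ℂ => q none)
          (fun o : Option ι => o.elim z0 x) := (continuous_apply none).continuousAt
      exact hc.eventually_ne (by simpa using hz0')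
    exact (Filter.eventually_all.2 h1).and h2
  have hcv : Tendsto (fun k : ℕ => fun _ : Unit => (1 / ((k : ℂ) + 1))) atTop
      (𝓝 (fun _ : Unit => (0 : ℂ))) :=
    tendsto_pi_nhds.2 fun _ => tendsto_one_div_add_atTop_nhds_zero_nat
  have key := zero_persists (s := Unit) (ι := Option ι) (o := Option (Option κ))
    (by rw [Fintype.card_option, Fintype.card_option, Fintype.card_option, hcard])
    (Q u g r w m) (fun k : ℕ => fun _ : Unit => (1 / ((k : ℂ) + 1))) (fun _ => 0) hcv
    (fun o : Option ι => o.elim z0 x) ?_ ?_ U hUn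
  · filter_upwards [key] with k hk
    obtain ⟨q, hqU, hq0, hqn⟩ := hk
    set θ : ℂ := 1 / ((k : ℂ) + 1) with hθ
    have hθ0 : θ ≠ 0 := one_div_ne_zero (Nat.cast_add_one_ne_zero k)
    set z : ℂ := q none with hz
    set y : ι → ℂ := fun i => q (some i) with hy
    have hpt : (Sum.elim (fun _ : Unit => θ) q : Unit ⊕ Option ι → ℂ) = pt θ z y := by
      funext t
      rcases t with a | (_ | i) <;> rfl
    rw [hpt] at hq0 hqn
    have e1 := hq0 none
    have e2 := hq0 (some none)
    have e3 := fun e => hq0 (some (some e))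
    rw [ev_Q1] at e1
    rw [ev_Q2] at e2
    have hu : eval y u = θ * z := sub_eq_zero.1 e1
    have hgr : eval y g * z ^ (m + 1) = eval y r := sub_eq_zero.1 e2
    have hz' : z ≠ 0 := hqU.2
    have hgrad : ∀ i, eval y (pderiv i (g * u ^ (m + 1) - C (θ ^ (m + 1)) * r)) =
        θ ^ m * (((m : ℂ) + 1) * (eval y g * (z ^ m * eval y (pderiv i u))) +
          θ * (z ^ (m + 1) * eval y (pderiv i g) - eval y (pderiv i r))) := by
      intro i
      simp only [map_sub, Derivation.leibniz, Derivation.leibniz_pow, smul_eq_mul, nsmul_eq_mul,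
        map_add, map_mul, map_pow, pderiv_C, map_natCast, eval_C, hu, Nat.add_sub_cancel,
        map_zero, mul_zero, add_zero]
      push_cast
      ring
    refine ⟨y, hqU.1, ⟨?_, ?_, ?_⟩, ?_⟩
    · simp only [map_sub, map_mul, map_pow, eval_C, hu, ← hgr]
      ring
    · intro e
      have h3 := e3 e
      rw [ev_Q3] at h3
      calc ∑ i, w e i * eval y (pderiv i (g * u ^ (m + 1) - C (θ ^ (m + 1)) * r))
          = θ ^ m * ∑ i, w e i * (((m : ℂ) + 1) * (eval y g * (z ^ m * eval y (pderiv i u))) +
          θ * (z ^ (m + 1) * eval y (pderiv i g) - eval y (pderiv i r))) := by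
            rw [mul_sum]
            refine sum_congr rfl fun i _ => ?_
            rw [hgrad i]
            ring
        _ = 0 := by rw [h3, mul_zero]
    · intro v hv1 hv2
      set t : ℂ := dl y v u / θ with ht
      have hdu : dl y v u = θ * t := by rw [ht]; field_simp
      have hd1 : θ ^ (m + 1) * dl (pt θ z y) (pt 0 t v) (Q u g r w m (some none)) = 0 := by
        refine Eq.trans ?_ hv1
        rw [dl_Q2]
        have : ∀ i, v i * eval y (pderiv i (g * u ^ (m + 1) - C (θ ^ (m + 1)) * r)) =
          θ ^ m * (((m : ℂ) + 1) * (eval y g * (z ^ m * (v i * eval y (pderiv i u)))) +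
          θ * (z ^ (m + 1) * (v i * eval y (pderiv i g)) - v i * eval y (pderiv i r))) := by
          intro i
          rw [hgrad i]
          ring
        rw [sum_congr rfl fun i _ => this i]
        have h5 : ∑ i, θ ^ m * (((m : ℂ) + 1) * (eval y g * (z ^ m * (v i * eval y (pderiv i u)))) +
          θ * (z ^ (m + 1) * (v i * eval y (pderiv i g)) - v i * eval y (pderiv i r))) =
          θ ^ m * (((m : ℂ) + 1) * (eval y g * (z ^ m * dl y v u)) +
          θ * (z ^ (m + 1) * dl y v g - dl y v r)) := by
          unfold dl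
          rw [← mul_sum, sum_add_distrib, ← mul_sum, ← mul_sum, ← mul_sum, ← mul_sum,
            sum_sub_distrib, ← mul_sum]
        rw [h5, hdu]
        ring
      have hz2 : (fun o : Option ι => o.elim t v) = (0 : Option ι → ℂ) := by
        apply hqn
        intro j
        rw [dl_pt]
        change dl (pt θ z y) (pt 0 t v) (Q u g r w m j) = 0
        rcases j with _ | (_ | e)
        · rw [dl_Q1, hdu, sub_self]
        · exact (mul_eq_zero.1 hd1).resolve_left (pow_ne_zero _ hθ0)
        · have h6 : θ ^ m * dl (pt θ z y) (pt 0 t v) (Q u g r w m (some (some e))) = 0 := by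
            refine Eq.trans ?_ (hv2 e)
            rw [dl_Q3, mul_sum]
            refine sum_congr rfl fun i _ => ?_
            have h7 : ∑ j, v j * w e i *
                eval y (pderiv j (pderiv i (g * u ^ (m + 1) - C (θ ^ (m + 1)) * r))) =
                w e i * dl y v (pderiv i (g * u ^ (m + 1) - C (θ ^ (m + 1)) * r)) := by
              unfold dl
              rw [mul_sum]
              exact sum_congr rfl fun j _ => by ring
            have h8 : pderiv i (g * u ^ (m + 1) - C (θ ^ (m + 1)) * r) =
                g * (C ((m : ℂ) + 1) * (u ^ m * pderiv i u)) + u ^ (m + 1) * pderiv i g -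
                  C (θ ^ (m + 1)) * pderiv i r := by
              simp only [map_sub, Derivation.leibniz, Derivation.leibniz_pow, smul_eq_mul,
                nsmul_eq_mul, pderiv_C, Nat.add_sub_cancel, mul_zero, add_zero]
              simp only [map_add, map_one, map_natCast]
              push_cast
              ring
            rw [h7, h8]
            simp only [dl_sub, dl_add, dl_mul, dl_pow, dl_C, map_mul, map_pow, eval_C, hu, hdu,
              Nat.add_sub_cancel]
            rcases m with _ | m
            · push_cast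
              ring
            · rw [Nat.add_sub_cancel]
              push_cast
              ring
          exact (mul_eq_zero.1 h6).resolve_left (pow_ne_zero _ hθ0)
      funext i
      exact congrFun hz2 (some i)
    · rw [hu]
      exact mul_ne_zero hθ0 hz'
  · intro j
    change eval (pt 0 z0 x) (Q u g r w m j) = 0
    rcases j with _ | (_ | e)
    · rw [ev_Q1, hx0]; ring
    · rw [ev_Q2, hz0]
      field_simp
      ring
    · rw [ev_Q3]
      have : ∀ i, w e i * (((m : ℂ) + 1) * (eval x g * (z0 ^ m * eval x (pderiv i u))) +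
        0 * (z0 ^ (m + 1) * eval x (pderiv i g) - eval x (pderiv i r))) =
        (((m : ℂ) + 1) * eval x g * z0 ^ m) * (w e i * eval x (pderiv i u)) := by
        intro i; ring
      rw [sum_congr rfl fun i _ => this i, ← mul_sum, hx1 e, mul_zero]
  · intro q hq
    have hq' : ∀ j, dl (pt 0 z0 x) (pt 0 (q none) (fun i => q (some i))) (Q u g r w m j) = 0 := by
      intro j
      rw [← dl_pt]
      exact hq j
    have e1 := hq' none
    have e2 := hq' (some none)
    rw [dl_Q1, zero_mul, sub_zero] at e1
    have hv : (fun i => q (some i)) = (0 : ι → ℂ) := by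
      apply hx2
      · exact e1
      · intro e
        have e3 := hq' (some (some e))
        rw [dl_Q3] at e3
        have h7 : ∀ i, ∑ j, q (some j) * w e i * eval x (pderiv j (pderiv i u)) =
            w e i * dl x (fun i => q (some i)) (pderiv i u) := by
          intro i
          unfold dl
          rw [mul_sum]
          exact sum_congr rfl fun j _ => by ring
        rw [sum_congr rfl fun i _ => h7 i]
        have h8 : ∀ i, w e i *
          (((m : ℂ) + 1) * (dl x (fun i => q (some i)) g * (z0 ^ m * eval x (pderiv i u)) +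
            eval x g * ((m * z0 ^ (m - 1) * q none) * eval x (pderiv i u) +
              z0 ^ m * dl x (fun i => q (some i)) (pderiv i u))) +
            0 * (((m : ℂ) + 1) * z0 ^ m * q none * eval x (pderiv i g) +
              z0 ^ (m + 1) * dl x (fun i => q (some i)) (pderiv i g) -
              dl x (fun i => q (some i)) (pderiv i r))) =
          (((m : ℂ) + 1) * (dl x (fun i => q (some i)) g * z0 ^ m +
            eval x g * (m * z0 ^ (m - 1) * q none))) * (w e i * eval x (pderiv i u)) +
          (((m : ℂ) + 1) * eval x g * z0 ^ m) *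
            (w e i * dl x (fun i => q (some i)) (pderiv i u)) := by
          intro i; ring
        rw [sum_congr rfl fun i _ => h8 i, sum_add_distrib, ← mul_sum, ← mul_sum, hx1 e, mul_zero,
          zero_add] at e3
        exact (mul_eq_zero.1 e3).resolve_left
          (mul_ne_zero (mul_ne_zero (Nat.cast_add_one_ne_zero m) hg) (pow_ne_zero _ hz0'))
    rw [dl_Q2, hv] at e2
    have h9 : ∀ P : MvPolynomial ι ℂ, dl x (0 : ι → ℂ) P = 0 := by
      intro P
      unfold dl
      simp
    rw [h9, h9, mul_zero, zero_add, sub_zero] at e2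
    have ht : q none = 0 := by
      have h10 := (mul_eq_zero.1 e2).resolve_left hg
      exact (mul_eq_zero.1 h10).resolve_left
        (mul_ne_zero (Nat.cast_add_one_ne_zero m) (pow_ne_zero _ hz0'))
    funext o
    rcases o with _ | i
    · exact ht
    · exact congrFun hv i

end Pool.Agent.L5helper59.DM
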